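import Mathlib
import Pool.Agent.H45.BK.Core

set_option autoImplicit false

open Finset

namespace Pool.Agent.Results.MP_d0a74c_co.BoundedRatios

open Pool.Agent.H45.BK Ho

lemma nc_of {X : Finset (ℝ × ℝ)}
    (h : ∀ a ∈ X, ∀ b ∈ X, ∀ c ∈ X, a ≠ b → a ≠ c → b ≠ c →
      ¬ Collinear ℝ ({a, b, c} : Set (ℝ × ℝ))) : NC X := by
  intro a ha b hb c hc hab hac hbc t ht
  refine h a ha b hb c hc hab hac hbc ?_
  rw [collinear_iff_of_mem (p₀ := a) (by simp)]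
  refine ⟨b - a, ?_⟩
  intro p hp
  simp only [Set.mem_insert_iff, Set.mem_singleton_iff] at hp
  rcases hp with rfl | rfl | rfl
  · exact ⟨0, by simp⟩
  · exact ⟨1, by simp⟩
  · exact ⟨t, by rw [vadd_eq_add, ← ht]; abel⟩

/-- the map sending `p` to the point `q` such that `b` divides `p q` with ratio `r` -/
noncomputable def gm (b : ℝ × ℝ) (r : ℝ) (h0 : r ≠ 0) (h1 : r ≠ 1) : Ho where
  l := Units.mk0 ((r - 1) / r) (div_ne_zero (sub_ne_zero.2 h1) h0)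
  v := (1 / r) • b

lemma ap_gm {b p q : ℝ × ℝ} {r : ℝ} (h0 : r ≠ 0) (h1 : r ≠ 1) (h : b = (1 - r) • p + r • q) :
    ap (gm b r h0 h1) p = q := by
  unfold ap gm
  simp only [Units.val_mk0]
  rw [h, smul_add, smul_smul, smul_smul, ← add_assoc, ← add_smul]
  have e1 : (r - 1) / r + 1 / r * (1 - r) = 0 := by field_simp; ring
  have e2 : 1 / r * r = 1 := by field_simp
  rw [e1, e2]; simp

lemma gm_inj {b b' : ℝ × ℝ} {r r' : ℝ} {h0 : r ≠ 0} {h1 : r ≠ 1} {h0' : r' ≠ 0} {h1' : r' ≠ 1}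
    (h : gm b r h0 h1 = gm b' r' h0' h1') : b = b' ∧ r = r' := by
  have e1 : (r - 1) / r = (r' - 1) / r' := by
    have := congrArg (fun g : Ho => (g.l : ℝ)) h
    simpa [gm] using this
  have e2 : r = r' := by
    rw [div_eq_div_iff h0 h0'] at e1
    linarith
  subst e2
  refine ⟨?_, rfl⟩
  have e3 : (1 / r) • b = (1 / r) • b' := congrArg Ho.v h
  exact smul_right_injective _ (one_div_ne_zero h0) e3

/-- **Blockers with ratios.** If `X` has no three points on a line and `D` is a set of at most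
`K |X|` pairs (point `b`, ratio `r`), `r ≠ 0, 1`, then at most `ε |X|²` ordered pairs `(p, q)` of
distinct points of `X` satisfy `b = (1 - r) p + r q` for some `(b, r)` in `D`, for `|X|` large. -/
theorem result : ∀ K ε : ℝ, 0 < ε → ∃ N : ℕ, ∀ X : Finset (ℝ × ℝ), N ≤ X.card →
    (∀ a ∈ X, ∀ b ∈ X, ∀ c ∈ X, a ≠ b → a ≠ c → b ≠ c →
      ¬ Collinear ℝ ({a, b, c} : Set (ℝ × ℝ))) →
    ∀ D : Finset ((ℝ × ℝ) × ℝ), (∀ d ∈ D, d.2 ≠ 0 ∧ d.2 ≠ 1) →
      (D.card : ℝ) ≤ K * (X.card : ℝ) →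
      (Set.ncard {w : (ℝ × ℝ) × (ℝ × ℝ) | w.1 ∈ X ∧ w.2 ∈ X ∧ w.1 ≠ w.2 ∧
        ∃ d ∈ D, d.1 = (1 - d.2) • w.1 + d.2 • w.2} : ℝ) ≤ ε * (X.card : ℝ) ^ 2 := by
  classical
  intro K ε hε
  set K' : ℝ := max K 0 + 1 with hK'
  have hK'pos : 0 < K' := by
    have := le_max_right K 0
    linarith
  have hKK' : K ≤ K' := by
    have := le_max_left K 0
    linarith
  set δ : ℝ := ε / (2 * K') with hδ
  have hδpos : 0 < δ := by positivity
  obtain ⟨N, hN⟩ := few_rich δ (ε / 2) hδpos (by positivity)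
  refine ⟨⌈N⌉₊, fun X hX hcol D hD hDc => ?_⟩
  have hNC := nc_of hcol
  have hNX : N ≤ (X.card : ℝ) := (Nat.le_ceil N).trans (by exact_mod_cast hX)
  -- the maps
  let g : (ℝ × ℝ) × ℝ → Ho := fun d =>
    if h : d.2 ≠ 0 ∧ d.2 ≠ 1 then gm d.1 d.2 h.1 h.2 else 1
  have hg : ∀ d ∈ D, ∀ p q : ℝ × ℝ, d.1 = (1 - d.2) • p + d.2 • q → ap (g d) p = q := by
    intro d hd p q h
    have : g d = gm d.1 d.2 (hD d hd).1 (hD d hd).2 := dif_pos (hD d hd)
    rw [this]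
    exact ap_gm _ _ h
  have hginj : Set.InjOn g D := by
    intro d hd d' hd' h
    have e1 : g d = gm d.1 d.2 (hD d hd).1 (hD d hd).2 := dif_pos (hD d hd)
    have e2 : g d' = gm d'.1 d'.2 (hD d' hd').1 (hD d' hd').2 := dif_pos (hD d' hd')
    rw [e1, e2] at h
    obtain ⟨h1, h2⟩ := gm_inj h
    exact Prod.ext h1 h2
  set D1 := D.filter (fun d => δ * X.card ≤ mm X (g d)) with hD1
  set D2 := D.filter (fun d => ¬ δ * X.card ≤ mm X (g d)) with hD2
  have h1 : (D1.card : ℝ) < ε / 2 * X.card := by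
    have h2 : D1.card = (D1.image g).card :=
      (card_image_of_injOn (hginj.mono (by exact_mod_cast filter_subset _ _))).symm
    rw [h2]
    refine hN X hNC hNX _ fun x hx => ?_
    rw [mem_image] at hx
    obtain ⟨d, hd, rfl⟩ := hx
    exact (mem_filter.1 hd).2
  -- covering
  have h2 : {w : (ℝ × ℝ) × (ℝ × ℝ) | w.1 ∈ X ∧ w.2 ∈ X ∧ w.1 ≠ w.2 ∧
      ∃ d ∈ D, d.1 = (1 - d.2) • w.1 + d.2 • w.2} ⊆
      ((D.biUnion fun d => (X.filter (fun p => ap (g d) p ∈ X)).image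
        (fun p => (p, ap (g d) p)) : Finset ((ℝ × ℝ) × (ℝ × ℝ))) :
        Set ((ℝ × ℝ) × (ℝ × ℝ))) := by
    rintro ⟨p, q⟩ ⟨hp, hq, -, d, hd, he⟩
    simp only at hp hq he
    rw [mem_coe, mem_biUnion]
    refine ⟨d, hd, ?_⟩
    rw [mem_image]
    have h3 := hg d hd p q he
    exact ⟨p, by rw [mem_filter, h3]; exact ⟨hp, hq⟩, by rw [h3]⟩
  have h3 : (Set.ncard {w : (ℝ × ℝ) × (ℝ × ℝ) | w.1 ∈ X ∧ w.2 ∈ X ∧ w.1 ≠ w.2 ∧
      ∃ d ∈ D, d.1 = (1 - d.2) • w.1 + d.2 • w.2} : ℝ) ≤ ∑ d ∈ D, (mm X (g d) : ℝ) := by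
    have h4 := Set.ncard_le_ncard h2 (Finset.finite_toSet _)
    rw [Set.ncard_coe_finset] at h4
    have h5 : (D.biUnion fun d => (X.filter (fun p => ap (g d) p ∈ X)).image
        (fun p => (p, ap (g d) p))).card ≤ ∑ d ∈ D, mm X (g d) := by
      refine card_biUnion_le.trans (sum_le_sum fun d _ => ?_)
      exact card_image_le
    exact_mod_cast h4.trans h5
  refine h3.trans ?_
  rw [← sum_filter_add_sum_filter_not D (fun d => δ * X.card ≤ mm X (g d))]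
  have h4 : ∑ d ∈ D1, (mm X (g d) : ℝ) ≤ D1.card * X.card := by
    rw [← nsmul_eq_mul]
    refine sum_le_card_nsmul _ _ _ fun d _ => ?_
    exact_mod_cast card_filter_le _ _
  have h5 : ∑ d ∈ D2, (mm X (g d) : ℝ) ≤ D2.card * (δ * X.card) := by
    rw [← nsmul_eq_mul]
    refine sum_le_card_nsmul _ _ _ fun d hd => ?_
    exact (not_le.1 (mem_filter.1 hd).2).le
  have h6 : (D2.card : ℝ) ≤ K' * X.card := by
    have h7 : (D2.card : ℝ) ≤ D.card := by exact_mod_cast card_filter_le _ _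
    refine h7.trans (hDc.trans ?_)
    exact mul_le_mul_of_nonneg_right hKK' (Nat.cast_nonneg _)
  have h7 : (D1.card : ℝ) * X.card ≤ ε / 2 * X.card * X.card :=
    mul_le_mul_of_nonneg_right h1.le (Nat.cast_nonneg _)
  have h8 : (D2.card : ℝ) * (δ * X.card) ≤ K' * X.card * (δ * X.card) :=
    mul_le_mul_of_nonneg_right h6 (by positivity)
  have h9 : K' * X.card * (δ * X.card) = ε / 2 * X.card * X.card := by
    rw [hδ]; field_simp
  have h10 : ε * (X.card : ℝ) ^ 2 = ε / 2 * X.card * X.card + ε / 2 * X.card * X.card := by ring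
  linarith

end Pool.Agent.Results.MP_d0a74c_co.BoundedRatios
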