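import Mathlib
import Pool.Agent.H34.BN.Final

set_option autoImplicit false

namespace Pool.Agent.Results.MP_d0a74c_co.FourTimes

/-- For every `C < 4` there are `c > 0` and `N` such that, for `n ≥ N`, whenever `X` is a set of
`n` points of the plane with no three collinear and `Y` is a set of fewer than `C n` points, more
than `c n ^ 2` ordered pairs of different points of `X` have no point of `Y` in the open segment
between them. In particular a blocking set has at least `C n` points for `n ≥ N`. -/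
theorem result :
    ∀ C : ℝ, C < 4 → ∃ c : ℝ, 0 < c ∧ ∃ N : ℕ, ∀ n : ℕ, N ≤ n →
      ∀ X Y : Finset (ℝ × ℝ), X.card = n →
        (∀ a ∈ X, ∀ b ∈ X, ∀ c ∈ X, a ≠ b → a ≠ c → b ≠ c →
            ¬ Collinear ℝ ({a, b, c} : Set (ℝ × ℝ))) →
        (Y.card : ℝ) < C * (n : ℝ) →
        c * (n : ℝ) ^ 2 < (({e : (ℝ × ℝ) × (ℝ × ℝ) | e.1 ∈ X ∧ e.2 ∈ X ∧ e.1 ≠ e.2 ∧
            ∀ z ∈ Y, z ∉ openSegment ℝ e.1 e.2}.ncard : ℕ) : ℝ) := by
  intro C hC
  obtain ⟨c, hc, N, h⟩ := Pool.H34.BN.main C hC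
  refine ⟨c, hc, N, fun n hn X Y hX h3 hY => ?_⟩
  by_contra hcon
  push Not at hcon
  have hset : {e : (ℝ × ℝ) × (ℝ × ℝ) | e.1 ∈ X ∧ e.2 ∈ X ∧ e.1 ≠ e.2 ∧
      ∀ z ∈ Y, z ∉ openSegment ℝ e.1 e.2} = ((Pool.H34.BN.unb X Y : Finset _) : Set _) := by
    ext e
    simp [Pool.H34.BN.unb, Finset.mem_offDiag, and_assoc]
  rw [hset, Set.ncard_coe_finset] at hcon
  exact absurd (h n hn X Y hX h3 hcon) (not_le.mpr hY)

end Pool.Agent.Results.MP_d0a74c_co.FourTimes
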